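import Pool.Agent.R196.PP.PiecesM

/-!
Piece P9 of the project MP_68f671_pr of helper196 (P9a, P9b, P9c, P9d, P9e).
-/

namespace Pool.Agent.R196.PP

open MeasureTheory ProbabilityTheory Filter Topology
open scoped ENNReal BigOperators

section general
variable (p : ℕ) [Fact p.Prime]

instance haarZ_prob : IsProbabilityMeasure (haarZ p) := by
  constructor
  have h : haarZ p ((⊤ : TopologicalSpace.PositiveCompacts ℤ_[p]) : Set ℤ_[p]) = 1 :=
    Measure.addHaarMeasure_self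
  simpa using h

instance haarZ_inv : (haarZ p).IsAddLeftInvariant := by
  unfold haarZ; infer_instance

/-- two `p`-adic integers are in the same class iff they are close -/
lemma cls_iff (a : ℕ) (z w : ℤ_[p]) :
    PadicInt.toZModPow a z = PadicInt.toZModPow a w ↔ ‖z - w‖ ≤ (p : ℝ) ^ (-a : ℤ) := by
  rw [PadicInt.norm_le_pow_iff_mem_span_pow, ← PadicInt.ker_toZModPow, RingHom.mem_ker, map_sub,
    sub_eq_zero]

lemma cls_meas (a : ℕ) (c : ZMod (p ^ a)) :
    MeasurableSet {z : ℤ_[p] | PadicInt.toZModPow a z = c} := by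
  rcases Set.eq_empty_or_nonempty {z : ℤ_[p] | PadicInt.toZModPow a z = c} with h | ⟨z0, h0⟩
  · rw [h]; exact MeasurableSet.empty
  · have : {z : ℤ_[p] | PadicInt.toZModPow a z = c} = Metric.closedBall z0 ((p : ℝ) ^ (-a : ℤ)) := by
      ext z
      have h0' : PadicInt.toZModPow a z0 = c := h0
      rw [Set.mem_ofPred_eq, Metric.mem_closedBall, dist_eq_norm, ← cls_iff, h0']
    rw [this]
    exact Metric.isClosed_closedBall.measurableSet

lemma val_cast (a a' : ℕ) (h : a ≤ a') (z : ℤ_[p]) :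
    (((PadicInt.toZModPow a' z).val : ℕ) : ZMod (p ^ a)) = PadicInt.toZModPow a z := by
  have : NeZero (p ^ a') := ⟨pow_ne_zero _ (Fact.out (p := p.Prime)).ne_zero⟩
  rw [ZMod.natCast_val, PadicInt.cast_toZModPow a a' h]

lemma cls_shift (a : ℕ) (c : ZMod (p ^ a)) :
    haarZ p {z : ℤ_[p] | PadicInt.toZModPow a z = c} =
      haarZ p {z : ℤ_[p] | PadicInt.toZModPow a z = 0} := by
  have : NeZero (p ^ a) := ⟨pow_ne_zero _ (Fact.out (p := p.Prime)).ne_zero⟩
  have h := measure_preimage_add (haarZ p) (((-(c.val : ℤ)) : ℤ) : ℤ_[p])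
    {z : ℤ_[p] | PadicInt.toZModPow a z = 0}
  rw [← h]
  congr 1
  ext z
  simp only [Set.mem_ofPred_eq, Set.mem_preimage, map_add, map_intCast]
  push_cast
  rw [ZMod.natCast_val, ZMod.cast_id', id, neg_add_eq_zero]
  exact eq_comm

lemma cls_haar (a : ℕ) (c : ZMod (p ^ a)) :
    haarZ p {z : ℤ_[p] | PadicInt.toZModPow a z = c} = ((p ^ a : ℕ) : ℝ≥0∞)⁻¹ := by
  have : NeZero (p ^ a) := ⟨pow_ne_zero _ (Fact.out (p := p.Prime)).ne_zero⟩
  have h1 : (1 : ℝ≥0∞) = ∑ c : ZMod (p ^ a), haarZ p {z : ℤ_[p] | PadicInt.toZModPow a z = c} := by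
    rw [← measure_univ (μ := haarZ p), ← tsum_fintype (L := .unconditional _),
      ← measure_iUnion]
    · congr 1
      ext z
      simp
    · intro c d hcd
      refine Set.disjoint_left.mpr fun z hz hz' => hcd ?_
      simp only [Set.mem_ofPred_eq] at hz hz'
      rw [← hz, ← hz']
    · exact fun c => cls_meas p a c
  rw [Finset.sum_congr rfl (fun c _ => cls_shift p a c), Finset.sum_const, Finset.card_univ,
    ZMod.card, nsmul_eq_mul] at h1
  rw [cls_shift]
  exact ENNReal.eq_inv_of_mul_eq_one_left (by rw [mul_comm]; exact h1.symm)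
end general

theorem P9a_holds : P9a := by
  unfold P9a muPh
  infer_instance

instance muPh_prob : IsProbabilityMeasure muPh := P9a_holds

instance muPh_inv : muPh.IsAddLeftInvariant := by
  unfold muPh; infer_instance

theorem P9d_holds : P9d := by
  intro a b E hE
  have : NeZero (3 ^ a) := ⟨by positivity⟩
  have : NeZero (5 ^ b) := ⟨by positivity⟩
  have key : {u : Ph | (((PadicInt.toZModPow a u.1).val : ℤ), ((PadicInt.toZModPow b u.2).val : ℤ)) ∈ E}
      = ⋃ e ∈ E, ({z : ℤ_[3] | PadicInt.toZModPow a z = (e.1 : ZMod (3 ^ a))} ×ˢ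
          {z : ℤ_[5] | PadicInt.toZModPow b z = (e.2 : ZMod (5 ^ b))}) := by
    ext u
    simp only [Set.mem_ofPred_eq, Set.mem_iUnion, Set.mem_prod, exists_prop]
    constructor
    · intro h
      refine ⟨_, h, ?_, ?_⟩
      · push_cast
        rw [ZMod.natCast_val, ZMod.cast_id', id]
      · push_cast
        rw [ZMod.natCast_val, ZMod.cast_id', id]
    · rintro ⟨e, he, h1, h2⟩
      have hc := hE he
      simp only [cell, Finset.mem_product, Finset.mem_Ico] at hc
      obtain ⟨⟨c1, c2⟩, c3, c4⟩ := hc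
      rw [h1, h2]
      have e1 : (((e.1 : ZMod (3 ^ a)).val : ℕ) : ℤ) = e.1 := by
        rw [ZMod.val_intCast, Int.emod_eq_of_lt c1 c2]
      have e2 : (((e.2 : ZMod (5 ^ b)).val : ℕ) : ℤ) = e.2 := by
        rw [ZMod.val_intCast, Int.emod_eq_of_lt c3 c4]
      rw [e1, e2]
      exact he
  rw [key, measure_biUnion_finset]
  · rw [Finset.sum_congr rfl (g := fun _ => ((3 ^ a * 5 ^ b : ℕ) : ℝ≥0∞)⁻¹)]
    · rw [Finset.sum_const, nsmul_eq_mul, div_eq_mul_inv]
    · intro e _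
      rw [muPh, Measure.prod_prod, cls_haar, cls_haar, ← ENNReal.mul_inv]
      · push_cast; rfl
      · left; positivity
      · right; positivity
  · intro e he e' he' hne
    refine Set.disjoint_left.mpr fun u hu hu' => hne ?_
    simp only [Set.mem_prod, Set.mem_ofPred_eq] at hu hu'
    have hc := hE he
    have hc' := hE he'
    simp only [cell, Finset.mem_product, Finset.mem_Ico] at hc hc'
    obtain ⟨⟨c1, c2⟩, c3, c4⟩ := hc
    obtain ⟨⟨d1, d2⟩, d3, d4⟩ := hc'
    have e1 : (((e.1 : ZMod (3 ^ a)).val : ℕ) : ℤ) = e.1 := by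
      rw [ZMod.val_intCast, Int.emod_eq_of_lt c1 c2]
    have e2 : (((e.2 : ZMod (5 ^ b)).val : ℕ) : ℤ) = e.2 := by
      rw [ZMod.val_intCast, Int.emod_eq_of_lt c3 c4]
    have f1 : (((e'.1 : ZMod (3 ^ a)).val : ℕ) : ℤ) = e'.1 := by
      rw [ZMod.val_intCast, Int.emod_eq_of_lt d1 d2]
    have f2 : (((e'.2 : ZMod (5 ^ b)).val : ℕ) : ℤ) = e'.2 := by
      rw [ZMod.val_intCast, Int.emod_eq_of_lt d3 d4]
    refine Prod.ext ?_ ?_
    · rw [← e1, ← f1, ← hu.1, ← hu'.1]
    · rw [← e2, ← f2, ← hu.2, ← hu'.2]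
  · intro e _
    exact (cls_meas 3 a _).prod (cls_meas 5 b _)

lemma near3_meas (a L : ℕ) (c : ℤ_[3]) : MeasurableSet {u : Ph | near3 a L (u.1 + c)} := by
  have : {u : Ph | near3 a L (u.1 + c)} =
      ⋃ i : ℤ, ⋃ _ : |i| < L, (fun u : Ph => u.1 + c) ⁻¹' {z | PadicInt.toZModPow a z = (i : ZMod (3 ^ a))} := by
    ext u
    simp [near3]
  rw [this]
  refine MeasurableSet.iUnion fun i => MeasurableSet.iUnion fun _ => ?_
  exact (measurable_fst.add_const c) (cls_meas 3 a _)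

lemma near5_meas (a L : ℕ) (c : ℤ_[5]) : MeasurableSet {u : Ph | near5 a L (u.2 + c)} := by
  have : {u : Ph | near5 a L (u.2 + c)} =
      ⋃ i : ℤ, ⋃ _ : |i| < L, (fun u : Ph => u.2 + c) ⁻¹' {z | PadicInt.toZModPow a z = (i : ZMod (5 ^ a))} := by
    ext u
    simp [near5]
  rw [this]
  refine MeasurableSet.iUnion fun i => MeasurableSet.iUnion fun _ => ?_
  exact (measurable_snd.add_const c) (cls_meas 5 a _)

theorem P9b_holds : P9b := by
  intro s
  rw [measurable_pi_iff]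
  intro x
  refine measurable_to_bool ?_
  have : (fun u => confOf s u x) ⁻¹' {true} =
      ⋂ k : ℕ, ({u : Ph | near3 (s.aM (k + 1)) (s.L (k + 1)) (u.1 + ((toPQ x).1 : ℤ_[3]))} ∩
        {u : Ph | near5 (s.bN (k + 1)) (s.L (k + 1)) (u.2 + ((toPQ x).2 : ℤ_[5]))})ᶜ := by
    ext u
    rw [Set.mem_preimage, Set.mem_singleton_iff]
    unfold confOf
    rw [@decide_eq_true_iff _ (Classical.propDecidable _)]
    simp only [envB, Set.mem_iInter, Set.mem_compl_iff, Set.mem_inter_iff, Set.mem_ofPred_eq]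
  rw [this]
  exact MeasurableSet.iInter fun k => ((near3_meas _ _ _).inter (near5_meas _ _ _)).compl

/-- density of the multiples of `(1, ε)`, `ε = ±1` -/
lemma dense_aux (ε : ℤ) (hε : ε * ε = 1) :
    DenseRange (fun n : ℤ => n • ((1, (ε : ℤ_[5])) : Ph)) := by
  rw [DenseRange, Metric.dense_iff]
  rintro ⟨x, y⟩ r hr
  obtain ⟨a, ha⟩ := PadicInt.exists_pow_neg_lt 3 hr
  obtain ⟨b, hb⟩ := PadicInt.exists_pow_neg_lt 5 hr
  have : NeZero (3 ^ a) := ⟨by positivity⟩
  have : NeZero (5 ^ b) := ⟨by positivity⟩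
  have hco : Nat.Coprime (3 ^ a) (5 ^ b) := by
    apply Nat.Coprime.pow; norm_num
  obtain ⟨n, hn1, hn2⟩ := Nat.chineseRemainder hco (PadicInt.toZModPow a x).val
    (PadicInt.toZModPow b ((ε : ℤ_[5]) * y)).val
  refine ⟨(n : ℤ) • ((1, (ε : ℤ_[5])) : Ph), ?_, ⟨(n : ℤ), rfl⟩⟩
  rw [Metric.mem_ball, Prod.dist_eq, max_lt_iff]
  constructor
  · refine lt_of_le_of_lt ?_ ha
    rw [dist_eq_norm, ← cls_iff]
    rw [Prod.smul_fst, zsmul_eq_mul, mul_one, map_intCast]
    have := (ZMod.natCast_eq_natCast_iff _ _ _).mpr hn1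
    rw [Int.cast_natCast]
    rw [this, ZMod.natCast_val, ZMod.cast_id', id]
  · refine lt_of_le_of_lt ?_ hb
    rw [dist_eq_norm, ← cls_iff]
    rw [Prod.smul_snd, zsmul_eq_mul, map_mul, map_intCast, map_intCast]
    have := (ZMod.natCast_eq_natCast_iff _ _ _).mpr hn2
    rw [Int.cast_natCast]
    rw [this, ZMod.natCast_val, ZMod.cast_id', id, map_mul, map_intCast, mul_comm, ← mul_assoc,
      ← Int.cast_mul, hε, Int.cast_one, one_mul]

lemma erg_aux (ε : ℤ) (hε : ε * ε = 1) :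
    Ergodic (fun u : Ph => ((1, (ε : ℤ_[5])) : Ph) + u) muPh :=
  ergodic_add_left_of_denseRange_zsmul (dense_aux ε hε) muPh

lemma envB_shift (s : Scales) (u : Ph) (w v : Pt) :
    w + v ∈ envB s u ↔ v ∈ envB s (((w.1 : ℤ_[3]), (w.2 : ℤ_[5])) + u) := by
  simp only [envB, Set.mem_ofPred_eq, Prod.fst_add, Prod.snd_add]
  push_cast
  have h1 : ∀ a b c : ℤ_[3], a + (b + c) = b + a + c := fun a b c => by ring
  have h2 : ∀ a b c : ℤ_[5], a + (b + c) = b + a + c := fun a b c => by ring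
  simp only [h1, h2]

theorem P9c_holds : P9c := by
  intro s i
  have hmp : MeasurePreserving (confOf s) muPh (Qm s) := ⟨P9b_holds s, rfl⟩
  have hsh : Measurable (shiftConf (Pi.single i 1 : Fin 2 → ℤ)) := by
    rw [measurable_pi_iff]
    intro y
    exact measurable_pi_apply _
  fin_cases i
  · refine hmp.ergodic_of_ergodic_semiconj (erg_aux 1 rfl) hsh ?_
    intro u
    funext x
    simp only [confOf, shiftConf]
    congr 1
    apply propext
    have := envB_shift s u (1, 1) (toPQ x)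
    rw [show ((1, 1) : Pt) + toPQ x = toPQ ((Pi.single 0 1 : Fin 2 → ℤ) + x) by
      simp [toPQ]; ring_nf; trivial] at this
    rw [← Iff.comm] at this
    simpa using this
  · refine hmp.ergodic_of_ergodic_semiconj (erg_aux (-1) rfl) hsh ?_
    intro u
    funext x
    simp only [confOf, shiftConf]
    congr 1
    apply propext
    have := envB_shift s u (1, -1) (toPQ x)
    rw [show ((1, -1) : Pt) + toPQ x = toPQ ((Pi.single 1 1 : Fin 2 → ℤ) + x) by
      simp [toPQ]; ring_nf; trivial] at this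
    rw [← Iff.comm] at this
    simpa using this

lemma hole_iff (a b L : ℕ) (w : Pt) : w ∈ hole (3 ^ a) (5 ^ b) L ↔
    ((∃ i : ℤ, |i| < L ∧ (w.1 : ZMod (3 ^ a)) = i) ∧ (∃ j : ℤ, |j| < L ∧ (w.2 : ZMod (5 ^ b)) = j)) := by
  constructor
  · rintro ⟨i, j, hi, hj⟩
    refine ⟨⟨w.1 - i * ((3 ^ a : ℕ) : ℤ), hi, ?_⟩, ⟨w.2 - j * ((5 ^ b : ℕ) : ℤ), hj, ?_⟩⟩
    · rw [Int.cast_sub, Int.cast_mul, Int.cast_natCast, ZMod.natCast_self, mul_zero, sub_zero]
    · rw [Int.cast_sub, Int.cast_mul, Int.cast_natCast, ZMod.natCast_self, mul_zero, sub_zero]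
  · rintro ⟨⟨i, hi, hi'⟩, ⟨j, hj, hj'⟩⟩
    rw [ZMod.intCast_eq_intCast_iff, Int.modEq_iff_dvd] at hi' hj'
    obtain ⟨c, hc⟩ := hi'
    obtain ⟨d, hd⟩ := hj'
    refine ⟨-c, -d, ?_, ?_⟩
    · rw [show w.1 - -c * ((3 ^ a : ℕ) : ℤ) = i by linarith]; exact hi
    · rw [show w.2 - -d * ((5 ^ b : ℕ) : ℤ) = j by linarith]; exact hj

lemma aM_mono (s : Scales) : Monotone s.aM := monotone_nat_of_le_succ s.aMs
lemma bN_mono (s : Scales) : Monotone s.bN := monotone_nat_of_le_succ s.bNs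

lemma hole_rep (s : Scales) (u : Ph) (v : Pt) (k m : ℕ) (hkm : k ≤ m) (L : ℕ) :
    v + rep s m u ∈ hole (3 ^ s.aM k) (5 ^ s.bN k) L ↔
      (near3 (s.aM k) L (u.1 + (v.1 : ℤ_[3])) ∧ near5 (s.bN k) L (u.2 + (v.2 : ℤ_[5]))) := by
  rw [hole_iff]
  have h1 : ((v + rep s m u).1 : ZMod (3 ^ s.aM k)) =
      PadicInt.toZModPow (s.aM k) (u.1 + (v.1 : ℤ_[3])) := by
    simp only [rep, Prod.fst_add]
    push_cast
    rw [val_cast 3 _ _ (aM_mono s hkm), map_add, map_intCast, add_comm]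
  have h2 : ((v + rep s m u).2 : ZMod (5 ^ s.bN k)) =
      PadicInt.toZModPow (s.bN k) (u.2 + (v.2 : ℤ_[5])) := by
    simp only [rep, Prod.snd_add]
    push_cast
    rw [val_cast 5 _ _ (bN_mono s hkm), map_add, map_intCast, add_comm]
  rw [h1, h2]
  rfl

lemma A_iff (s : Scales) (w : Pt) : ∀ k, w ∈ s.A k ↔
    ∀ j, j < k → w ∉ hole (3 ^ s.aM (j + 1)) (5 ^ s.bN (j + 1)) (s.L (j + 1)) := by
  intro k
  induction k with
  | zero => simp [Scales.A]
  | succ k ih =>
    rw [Scales.A, Set.mem_sdiff, ih]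
    constructor
    · rintro ⟨h1, h2⟩ j hj
      rcases Nat.lt_succ_iff_lt_or_eq.mp hj with h | h
      · exact h1 j h
      · subst h; exact h2
    · intro h
      exact ⟨fun j hj => h j (by omega), h k (by omega)⟩

theorem P9e_holds : P9e := by
  intro s u v
  constructor
  · intro h k
    rw [A_iff]
    intro j hj
    rw [hole_rep s u v (j + 1) k hj]
    exact h j
  · intro h k
    have := (A_iff s _ (k + 1)).mp (h (k + 1)) k (Nat.lt_succ_self k)
    rw [hole_rep s u v (k + 1) (k + 1) le_rfl] at this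
    exact this

end Pool.Agent.R196.PP
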